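import Pool.Agent.helper65.GD.SpecF

/-!
# Row XAV (MP_ea335c_an, project of helper65)
-/

set_option autoImplicit false

namespace Pool.Agent.GD

open Finset Metric Filter Topology

/-- The first term of a Cauchy product. -/
theorem XAV_cv (a Q : ℕ → ℂ) (i : ℕ) :
    cv a Q i = a i * Q 0 + ∑ t ∈ range i, a (i - (t + 1)) * Q (t + 1) := by
  unfold cv
  rw [Finset.sum_range_succ', Nat.sub_zero, add_comm]

/-- `gy` as a sum. -/
theorem XAV_gy (a : ℕ → ℂ) (y : ℂ) (i : ℕ) :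
    gy a y i = a i + ∑ t ∈ range i, a (i - (t + 1)) * y ^ (t + 1) := by
  rw [gy_eq, cv_comm, XAV_cv, pow_zero, mul_one]

/-- The sum with the index shifted. -/
theorem XAV_shift (a b : ℕ → ℂ) (y : ℂ) (r : ℕ) :
    ∑ i ∈ range (r + 1), b i * (gy a y i - a i) = y * ∑ i ∈ Icc 1 r, b i * gy a y (i - 1) := by
  rw [Finset.sum_range_succ', gy_zero, sub_self, mul_zero, add_zero]
  have h1 : ∑ i ∈ Icc 1 r, b i * gy a y (i - 1) = ∑ i ∈ range r, b (i + 1) * gy a y i := by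
    induction r with
    | zero => simp
    | succ r ih => rw [Finset.sum_Icc_succ_top (by omega), ih, Finset.sum_range_succ,
        Nat.add_sub_cancel]
  rw [h1, Finset.mul_sum]
  refine Finset.sum_congr rfl fun i _ => ?_
  rw [gy_succ]
  ring

/-- `|2κ - 1| ≤ 1`. -/
theorem XAV_kap (κ : ℂ) (h : ‖κ‖ ^ 2 ≤ κ.re) : ‖2 * κ - 1‖ ≤ 1 := by
  have h1 : ‖2 * κ - 1‖ ^ 2 ≤ 1 := by
    rw [← Complex.normSq_eq_norm_sq] at h ⊢
    rw [Complex.normSq_apply] at h ⊢
    simp only [Complex.sub_re, Complex.sub_im, Complex.mul_re, Complex.mul_im, Complex.one_re,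
      Complex.one_im, Complex.re_ofNat, Complex.im_ofNat]
    nlinarith
  exact (sq_le_one_iff₀ (norm_nonneg _)).1 h1

/-- The bound for a point mass. -/
theorem XAV_pt (a b : ℕ → ℂ) (κ y : ℂ) (r : ℕ) (M : ℝ) (hκ : ‖κ‖ ^ 2 ≤ κ.re) (hy : ‖y‖ = 1)
    (hM : ‖∑ i ∈ range (r + 1), b i * gy a y i‖ + ‖∑ i ∈ Icc 1 r, b i * gy a y (i - 1)‖ ≤ M) :
    ‖∑ i ∈ range (r + 1), b i *
      (a i + 2 * κ * ∑ t ∈ range i, a (i - (t + 1)) * y ^ (t + 1))‖ ≤ M := by
  have h1 : ∑ i ∈ range (r + 1), b i *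
      (a i + 2 * κ * ∑ t ∈ range i, a (i - (t + 1)) * y ^ (t + 1)) =
      ∑ i ∈ range (r + 1), b i * gy a y i +
        (2 * κ - 1) * (y * ∑ i ∈ Icc 1 r, b i * gy a y (i - 1)) := by
    rw [← XAV_shift, Finset.mul_sum, ← Finset.sum_add_distrib]
    refine Finset.sum_congr rfl fun i _ => ?_
    rw [XAV_gy]
    ring
  rw [h1]
  refine (norm_add_le _ _).trans (le_trans ?_ hM)
  have h2 : ‖(2 * κ - 1) * (y * ∑ i ∈ Icc 1 r, b i * gy a y (i - 1))‖ ≤
      ‖∑ i ∈ Icc 1 r, b i * gy a y (i - 1)‖ := by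
    rw [norm_mul, norm_mul, hy, one_mul]
    exact mul_le_of_le_one_left (norm_nonneg _) (XAV_kap κ hκ)
  linarith

/-- The bound for atomic measures. -/
theorem XAV_atom (a b : ℕ → ℂ) (κ : ℂ) (r : ℕ) (M : ℝ) (hκ : ‖κ‖ ^ 2 ≤ κ.re)
    (hM : ∀ y : ℂ, ‖y‖ = 1 →
      ‖∑ i ∈ range (r + 1), b i * gy a y i‖ + ‖∑ i ∈ Icc 1 r, b i * gy a y (i - 1)‖ ≤ M)
    (N : ℕ) (w : Fin N → ℝ) (x : Fin N → ℂ) (hA : Atomic N w x) :
    ‖∑ i ∈ range (r + 1), b i *
      (a i + 2 * κ * ∑ t ∈ range i, a (i - (t + 1)) * mom w x (t + 1))‖ ≤ M := by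
  obtain ⟨hw, hs, hx⟩ := hA
  have hs' : ∑ l, (w l : ℂ) = 1 := by exact_mod_cast hs
  have h1 : ∑ i ∈ range (r + 1), b i *
      (a i + 2 * κ * ∑ t ∈ range i, a (i - (t + 1)) * mom w x (t + 1)) =
      ∑ l, (w l : ℂ) * ∑ i ∈ range (r + 1), b i *
        (a i + 2 * κ * ∑ t ∈ range i, a (i - (t + 1)) * x l ^ (t + 1)) := by
    have h2 : ∀ i, a i + 2 * κ * ∑ t ∈ range i, a (i - (t + 1)) * mom w x (t + 1) =
        ∑ l, (w l : ℂ) * (a i + 2 * κ * ∑ t ∈ range i, a (i - (t + 1)) * x l ^ (t + 1)) := by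
      intro i
      have h3 : ∑ t ∈ range i, a (i - (t + 1)) * mom w x (t + 1) =
          ∑ l, (w l : ℂ) * ∑ t ∈ range i, a (i - (t + 1)) * x l ^ (t + 1) := by
        unfold mom
        simp only [Finset.mul_sum]
        rw [Finset.sum_comm]
        refine Finset.sum_congr rfl fun l _ => Finset.sum_congr rfl fun t _ => ?_
        ring
      have h4 : a i = ∑ l, (w l : ℂ) * a i := by
        rw [← Finset.sum_mul, hs', one_mul]
      rw [h3]
      conv_lhs => rw [h4]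
      rw [Finset.mul_sum, ← Finset.sum_add_distrib]
      refine Finset.sum_congr rfl fun l _ => ?_
      ring
    simp only [h2, Finset.mul_sum (s := range (r + 1))]
    simp only [Finset.mul_sum (s := (univ : Finset (Fin N)))]
    rw [Finset.sum_comm]
    refine Finset.sum_congr rfl fun l _ => Finset.sum_congr rfl fun i _ => ?_
    ring
  rw [h1]
  refine (norm_sum_le _ _).trans ?_
  have h5 : ∀ l ∈ (univ : Finset (Fin N)), ‖(w l : ℂ) * ∑ i ∈ range (r + 1), b i *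
        (a i + 2 * κ * ∑ t ∈ range i, a (i - (t + 1)) * x l ^ (t + 1))‖ ≤ w l * M := by
    intro l _
    rw [norm_mul, Complex.norm_real, Real.norm_of_nonneg (hw l)]
    exact mul_le_mul_of_nonneg_left (XAV_pt a b κ (x l) r M hκ (hx l) (hM (x l) (hx l))) (hw l)
  refine (Finset.sum_le_sum h5).trans ?_
  rw [← Finset.sum_mul, hs, one_mul]

/-- XAV. -/
theorem XAV : XAV_stmt := by
  intro a b Q r M hQ hM
  obtain ⟨hQ0, κ, μ, hμ, hκ, hQm⟩ := hQ
  have h1 : ∑ i ∈ range (r + 1), b i * cv a Q i = ∑ i ∈ range (r + 1), b i *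
      (a i + 2 * κ * ∑ t ∈ range i, a (i - (t + 1)) * μ (t + 1)) := by
    refine Finset.sum_congr rfl fun i _ => ?_
    rw [XAV_cv, hQ0, mul_one, Finset.mul_sum]
    congr 2
    refine Finset.sum_congr rfl fun t _ => ?_
    rw [hQm (t + 1) (by omega)]
    ring
  rw [h1]
  set C : ℝ := ∑ i ∈ range (r + 1), ‖b i‖ *
    (2 * ‖κ‖ * ∑ t ∈ range i, ‖a (i - (t + 1))‖) with hC
  have hC0 : 0 ≤ C := by
    rw [hC]
    positivity
  refine le_of_forall_pos_le_add fun ε hε => ?_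
  obtain ⟨N, w, x, hA, hN⟩ := hμ r (ε / (C + 1)) (by positivity)
  have h2 := XAV_atom a b κ r M hκ hM N w x hA
  have h3 : ‖(∑ i ∈ range (r + 1), b i *
      (a i + 2 * κ * ∑ t ∈ range i, a (i - (t + 1)) * μ (t + 1))) -
      ∑ i ∈ range (r + 1), b i *
      (a i + 2 * κ * ∑ t ∈ range i, a (i - (t + 1)) * mom w x (t + 1))‖ ≤
      C * (ε / (C + 1)) := by
    rw [← Finset.sum_sub_distrib, hC, Finset.sum_mul]
    refine (norm_sum_le _ _).trans (Finset.sum_le_sum fun i hi => ?_)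
    have hi' := Finset.mem_range.1 hi
    have h4 : b i * (a i + 2 * κ * ∑ t ∈ range i, a (i - (t + 1)) * μ (t + 1)) -
        b i * (a i + 2 * κ * ∑ t ∈ range i, a (i - (t + 1)) * mom w x (t + 1)) =
        b i * (2 * κ * ∑ t ∈ range i, a (i - (t + 1)) * (μ (t + 1) - mom w x (t + 1))) := by
      simp only [mul_sub, Finset.sum_sub_distrib]
      ring
    rw [h4, norm_mul, norm_mul, norm_mul, Complex.norm_ofNat, mul_assoc (‖b i‖), mul_assoc (2 * ‖κ‖)]
    refine mul_le_mul_of_nonneg_left (mul_le_mul_of_nonneg_left ?_ (by positivity))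
      (norm_nonneg _)
    rw [Finset.sum_mul]
    refine (norm_sum_le _ _).trans (Finset.sum_le_sum fun t ht => ?_)
    have ht' := Finset.mem_range.1 ht
    rw [norm_mul]
    refine mul_le_mul_of_nonneg_left ?_ (norm_nonneg _)
    rw [norm_sub_rev]
    exact (hN (t + 1) (by omega)).le
  have h5 : C * (ε / (C + 1)) ≤ ε := by
    rw [← mul_div_assoc, div_le_iff₀ (by positivity)]
    nlinarith
  have h6 := norm_le_norm_add_norm_sub' (∑ i ∈ range (r + 1), b i *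
      (a i + 2 * κ * ∑ t ∈ range i, a (i - (t + 1)) * μ (t + 1)))
    (∑ i ∈ range (r + 1), b i *
      (a i + 2 * κ * ∑ t ∈ range i, a (i - (t + 1)) * mom w x (t + 1)))
  linarith

end Pool.Agent.GD
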